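import Pool.Agent.MP_bfbf95_lc.Mg.Red

namespace Pool.Agent.Results.MP_bfbf95_lc.NPComplete

theorem result : N793a5b8e.IsCompleteFor N68a2faeb.NP Pool.Agent.MP_bfbf95_lc.tdsEq := by
  rw [Pool.Agent.MP_bfbf95_lc.tdsEq_eq]
  exact Pool.Agent.MP_bfbf95_lc.good_complete

end Pool.Agent.Results.MP_bfbf95_lc.NPComplete
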